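import Pool.Agent.BE01.Stmts

/-!
# Squad BE01, module TRP: evaluation along the trajectory
-/

namespace Pool.Agent.BE01.H33

open Set Filter Topology Pool.Agent.BE01

theorem trp (hder : DerStmt) (hply : PlyStmt) : TrpStmt := by
  intro M _ _ α c ω a b P δ ψ t hα hP hδ hdδ hdψ
  refine ⟨(hply M α c ω a b P hP).2.1, ?_⟩
  have h1 := (hder M α c P hP).2.2.2.2.2 ψ δ t (ω + b.eval (δ t)) (α * a.eval (δ t)) hdψ hdδ
  have hα' : (α : ℝ) ≠ 0 := by
    have : (0 : ℝ) < α := by exact_mod_cast hα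
    exact this.ne'
  have h2 : HasDerivAt (fun s => δ s ^ (1 / (α : ℝ)))
      (δ t ^ (1 / (α : ℝ)) * a.eval (δ t)) t := by
    have h3 := hdδ.rpow_const (p := 1 / (α : ℝ)) (Or.inl hδ.ne')
    have h4 : δ t * (α * a.eval (δ t)) * (1 / (α : ℝ)) * δ t ^ (1 / (α : ℝ) - 1) =
        δ t ^ (1 / (α : ℝ)) * a.eval (δ t) := by
      rw [Real.rpow_sub hδ, Real.rpow_one]
      field_simp
    rwa [h4] at h3
  have h5 := h2.smul h1
  have h6 : δ t ^ (1 / (α : ℝ)) • ((ω + b.eval (δ t)) • dps P (ψ t) (δ t) +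
      (α * a.eval (δ t)) • ddl P (ψ t) (δ t)) +
      (δ t ^ (1 / (α : ℝ)) * a.eval (δ t)) • P (ψ t) (δ t) =
      (δ t ^ (1 / (α : ℝ))) • DD α ω a b P (ψ t) (δ t) := by
    unfold DD
    module
  rw [← h6]
  exact h5

end Pool.Agent.BE01.H33
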